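import Pool.Agent.U830.FA.Stm

/-!
# Project FA, package CT (helper394): the number of the exponents `a`

An element `a` of the box is determined by `a 1, …, a n`, because `a 0 < q` is determined modulo `q`.
-/

set_option autoImplicit false

namespace Pool.Agent.U394.FA

open Pool.Agent.U830.FA

theorem t_CT : S_CT := by
  intro n q k hq
  have hmap : Set.MapsTo (fun a : Fin (n + 1) → ℕ => Fin.tail a) (box (n + 1) q k : Set (Fin (n + 1) → ℕ))
      (Fintype.piFinset fun _ : Fin n => Finset.range q : Finset (Fin n → ℕ)) := by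
    intro a ha
    have h1 := (Finset.mem_filter.1 (Finset.mem_coe.1 ha)).1
    rw [Fintype.mem_piFinset] at h1
    rw [Finset.mem_coe, Fintype.mem_piFinset]
    exact fun i => h1 i.succ
  have hinj : Set.InjOn (fun a : Fin (n + 1) → ℕ => Fin.tail a) (box (n + 1) q k : Set (Fin (n + 1) → ℕ)) := by
    intro a ha b hb hab
    obtain ⟨ha1, ha2, u, hu⟩ := Finset.mem_filter.1 (Finset.mem_coe.1 ha)
    obtain ⟨hb1, hb2, w, hw⟩ := Finset.mem_filter.1 (Finset.mem_coe.1 hb)
    rw [Fintype.mem_piFinset] at ha1 hb1
    have ha0 := Finset.mem_range.1 (ha1 0)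
    have hb0 := Finset.mem_range.1 (hb1 0)
    have ht : Fin.tail a = Fin.tail b := hab
    have hs : ∑ i : Fin n, a i.succ = ∑ i : Fin n, b i.succ :=
      Finset.sum_congr rfl fun i _ => congrFun ht i
    rw [Fin.sum_univ_succ] at ha2 hu hb2 hw
    have h0 : a 0 = b 0 := by
      obtain ⟨A, hA⟩ : ∃ A, A = ∑ i : Fin n, b i.succ := ⟨_, rfl⟩
      rw [hs, ← hA] at ha2 hu
      rw [← hA] at hb2 hw
      have e1 : (k : ℤ) - (a 0 + A) = q * u := by
        have : k = q * u + (a 0 + A) := by omega
        rw [this]; push_cast; ring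
      have e2 : (k : ℤ) - (b 0 + A) = q * w := by
        have : k = q * w + (b 0 + A) := by omega
        rw [this]; push_cast; ring
      have e3 : (q : ℤ) ∣ (b 0 : ℤ) - a 0 := ⟨u - w, by linear_combination e1 - e2⟩
      have e4 : (b 0 : ℤ) - a 0 = 0 := by
        apply Int.eq_zero_of_abs_lt_dvd e3
        rw [abs_lt]
        constructor <;> omega
      omega
    funext i
    refine Fin.cases h0 (fun j => ?_) i
    exact congrFun ht j
  have h := Finset.card_le_card_of_injOn _ hmap hinj
  rw [Fintype.card_piFinset] at h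
  simpa using h

end Pool.Agent.U394.FA
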